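import Pool.Agent.Work.MP_a793bb_nt.OrdH.FinalH
import Pool.Agent.Work.MP_a793bb_nt.OrdM.FinalM

/-!
# Concentration

All but a power saving number of the points with radical at most `exp ℓ` have height at most
`(1 / 3 + δ) ℓ`: `partII_affine` for the heights at most `Lam ℓ` and `partIII_affine` for the others.
-/

set_option autoImplicit false

namespace Pool.Agent.Work.MP_a793bb_nt

open AbcRadK Pool.Agent.Work.MP_a793bb_nt.BPlus NumberField IsDedekindDomain Height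

theorem conc_affine (K : Type*) [Field K] [NumberField K] (δ : ℝ) (hδ : 0 < δ) :
    ∃ η C : ℝ, 0 < η ∧ 0 < C ∧ ∀ ℓ : ℝ, 0 ≤ ℓ →
      {t : K | t ≠ 0 ∧ t ≠ 1 ∧ Rs (Ip t) ≤ ℓ ∧ (1 / 3 + δ) * ℓ ≤ hh t}.Finite ∧
      ({t : K | t ≠ 0 ∧ t ≠ 1 ∧ Rs (Ip t) ≤ ℓ ∧ (1 / 3 + δ) * ℓ ≤ hh t}.ncard : ℝ) ≤
        C * Real.exp ((2 / 3 - η) * ℓ) := by
  obtain ⟨Lam, η₁, C₁, hL, hη₁, h₁⟩ := partIII_affine K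
  obtain ⟨η₂, C₂, hη₂, h₂⟩ := partII_affine K Lam δ hL hδ
  refine ⟨min η₁ η₂, |C₁| + |C₂| + 1, lt_min hη₁ hη₂, by positivity, fun ℓ hℓ => ?_⟩
  obtain ⟨f₁, b₁⟩ := h₁ ℓ hℓ
  obtain ⟨f₂, b₂⟩ := h₂ ℓ hℓ
  have hsub : {t : K | t ≠ 0 ∧ t ≠ 1 ∧ Rs (Ip t) ≤ ℓ ∧ (1 / 3 + δ) * ℓ ≤ hh t} ⊆
      {t : K | t ≠ 0 ∧ t ≠ 1 ∧ Rs (Ip t) ≤ ℓ ∧ Lam * ℓ ≤ hh t} ∪
      {t : K | t ≠ 0 ∧ t ≠ 1 ∧ Rs (Ip t) ≤ ℓ ∧ (1 / 3 + δ) * ℓ ≤ hh t ∧ hh t ≤ Lam * ℓ} := by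
    rintro t ⟨n0, n1, hR, hh'⟩
    rcases le_total (Lam * ℓ) (hh t) with h | h
    · exact Or.inl ⟨n0, n1, hR, h⟩
    · exact Or.inr ⟨n0, n1, hR, hh', h⟩
  refine ⟨(f₁.union f₂).subset hsub, ?_⟩
  have hc := (Set.ncard_le_ncard hsub (f₁.union f₂)).trans (Set.ncard_union_le _ _)
  have hc' : ({t : K | t ≠ 0 ∧ t ≠ 1 ∧ Rs (Ip t) ≤ ℓ ∧ (1 / 3 + δ) * ℓ ≤ hh t}.ncard : ℝ) ≤
      ({t : K | t ≠ 0 ∧ t ≠ 1 ∧ Rs (Ip t) ≤ ℓ ∧ Lam * ℓ ≤ hh t}.ncard : ℝ) +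
      ({t : K | t ≠ 0 ∧ t ≠ 1 ∧ Rs (Ip t) ≤ ℓ ∧ (1 / 3 + δ) * ℓ ≤ hh t ∧
        hh t ≤ Lam * ℓ}.ncard : ℝ) := by
    exact_mod_cast hc
  have e₁ : Real.exp ((2 / 3 - η₁) * ℓ) ≤ Real.exp ((2 / 3 - min η₁ η₂) * ℓ) := by
    rw [Real.exp_le_exp]
    exact mul_le_mul_of_nonneg_right (by linarith [min_le_left η₁ η₂]) hℓ
  have e₂ : Real.exp ((2 / 3 - η₂) * ℓ) ≤ Real.exp ((2 / 3 - min η₁ η₂) * ℓ) := by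
    rw [Real.exp_le_exp]
    exact mul_le_mul_of_nonneg_right (by linarith [min_le_right η₁ η₂]) hℓ
  have g₁ : C₁ * Real.exp ((2 / 3 - η₁) * ℓ) ≤
      |C₁| * Real.exp ((2 / 3 - min η₁ η₂) * ℓ) :=
    mul_le_mul (le_abs_self _) e₁ (Real.exp_pos _).le (abs_nonneg _)
  have g₂ : C₂ * Real.exp ((2 / 3 - η₂) * ℓ) ≤
      |C₂| * Real.exp ((2 / 3 - min η₁ η₂) * ℓ) :=
    mul_le_mul (le_abs_self _) e₂ (Real.exp_pos _).le (abs_nonneg _)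
  have e₃ : 0 < Real.exp ((2 / 3 - min η₁ η₂) * ℓ) := Real.exp_pos _
  refine hc'.trans ((add_le_add (b₁.trans g₁) (b₂.trans g₂)).trans ?_)
  nlinarith

end Pool.Agent.Work.MP_a793bb_nt
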