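import Pool.Agent.Work.MP_a793bb_nt.RadE.FinalDefsE

/-!
# Points whose height is large compared with the radical
-/

set_option autoImplicit false

namespace Pool.Agent.Work.MP_a793bb_nt

open NumberField LinearAlgebra.Projectivization

/-- The points `P = (a : b : c)` of `abcPts K R` with `H(P) ^ 3 ≥ T N(P)`, where
`H(P) = exp (d * h(P))` and `N(P) = exp (d * rad(P))` (`d` the degree of `K`: `N(P)` is the product
of the norms of the primes in `I_K(P)`). -/
def devPts (K : Type*) [Field K] [NumberField K] (T R : ℝ) : Set (ℙ K (Fin 3 → K)) :=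
  {P | ∃ (a b c : K) (h : ![a, b, c] ≠ 0), P = Projectivization.mk K ![a, b, c] h ∧
    a + b + c = 0 ∧ a * b * c ≠ 0 ∧ Real.exp ((Module.finrank ℚ K : ℝ) * rad a b c) ≤ R ∧
    T * Real.exp ((Module.finrank ℚ K : ℝ) * rad a b c) ≤
      Real.exp ((Module.finrank ℚ K : ℝ) * ht a b c) ^ 3}

/-- The points `P = (a : b : c)` of `abcPts K R` with `h(P) > lam * rad(P)`. -/
def abcFail (K : Type*) [Field K] [NumberField K] (lam R : ℝ) : Set (ℙ K (Fin 3 → K)) :=
  {P | ∃ (a b c : K) (h : ![a, b, c] ≠ 0), P = Projectivization.mk K ![a, b, c] h ∧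
    a + b + c = 0 ∧ a * b * c ≠ 0 ∧ Real.exp ((Module.finrank ℚ K : ℝ) * rad a b c) ≤ R ∧
    lam * rad a b c < ht a b c}

end Pool.Agent.Work.MP_a793bb_nt
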