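import Pool.Agent.Work.MP_a793bb_nt.OrdA.DefsA
import Pool.Agent.Work.MP_a793bb_nt.Asy.TEps
import Pool.Agent.Work.MP_a793bb_nt.OrdA.TailS
import Pool.Agent.Work.MP_a793bb_nt.RadE.FinalE

/-!
# The points ordered by the radical
-/

set_option autoImplicit false

namespace Pool.Agent.Work.MP_a793bb_nt

open AbcRadK AbcAsy Pool.Agent.Work.MP_a793bb_nt.BPlus NumberField IsDedekindDomain Height
  LinearAlgebra.Projectivization

/-- The tail, in terms of elements. -/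
theorem tail_affine (K : Type*) [Field K] [NumberField K] (ε : ℝ) (hε : 0 < ε) :
    ∃ η C : ℝ, 0 < η ∧ 0 < C ∧ ∀ ℓ τ : ℝ, 0 ≤ ℓ → 0 ≤ τ →
      {t : K | t ∈ tset K ℓ ∧ τ ≤ 3 * hh t - Rs (Ip t)}.Finite ∧
      ({t : K | t ∈ tset K ℓ ∧ τ ≤ 3 * hh t - Rs (Ip t)}.ncard : ℝ) ≤
        C * Real.exp (2 / 3 * ℓ) * (Real.exp (-((1 / 3 - ε) * τ)) + Real.exp (-(η * ℓ))) := by
  classical
  obtain ⟨e, he⟩ : ∃ e : ℝ, e = min ε (1 / 24) := ⟨_, rfl⟩
  have he0 : 0 < e := by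
    rw [he]
    exact lt_min hε (by norm_num)
  have heε : e ≤ ε := he ▸ min_le_left _ _
  obtain ⟨C₁, hC₁, h₁⟩ := AbcOrdA.tail_sharp K e he0 (he ▸ min_le_right _ _)
  obtain ⟨C₂, η, hC₂, hη, h₂⟩ := conc K
  have hC₁0 : 0 < C₁ := by linarith
  refine ⟨min η (1 / 24), C₁ + C₂, lt_min hη (by norm_num), by positivity,
    fun ℓ τ hℓ hτ => ?_⟩
  have hfin : {t : K | t ∈ tset K ℓ ∧ τ ≤ 3 * hh t - Rs (Ip t)}.Finite :=
    (tset_finite K ℓ).subset fun t ht => ht.1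
  refine ⟨hfin, ?_⟩
  rw [Set.ncard_eq_toFinset_card _ hfin]
  obtain ⟨W, hW⟩ : ∃ W : Finset K, W = hfin.toFinset := ⟨_, rfl⟩
  rw [← hW]
  have hmem : ∀ t ∈ W, t ∈ tset K ℓ ∧ τ ≤ 3 * hh t - Rs (Ip t) := by
    intro t ht
    rw [hW, Set.Finite.mem_toFinset] at ht
    exact ht
  obtain ⟨P, hP⟩ : ∃ P : K → Prop, P = fun t => hh t ≤ 3 / 8 * ℓ := ⟨_, rfl⟩
  have hsplit : W.card = (W.filter P).card + (W.filter (fun t => ¬ P t)).card :=
    (Finset.card_filter_add_card_filter_not P).symm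
  have b₁ := h₁ ℓ τ (W.filter P) hℓ hτ (fun t ht => by
    obtain ⟨ht1, ht2⟩ := Finset.mem_filter.mp ht
    rw [hP] at ht2
    exact ⟨(hmem t ht1).1, ht2, (hmem t ht1).2⟩)
  have b₂ := h₂ ℓ (W.filter (fun t => ¬ P t)) hℓ (fun t ht => by
    obtain ⟨ht1, ht2⟩ := Finset.mem_filter.mp ht
    rw [hP] at ht2
    exact ⟨(hmem t ht1).1, not_le.mp ht2⟩)
  have hcast : (W.card : ℝ) = ((W.filter P).card : ℝ) +
      ((W.filter (fun t => ¬ P t)).card : ℝ) := by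
    exact_mod_cast hsplit
  obtain ⟨m, hm⟩ : ∃ m : ℝ, m = min η (1 / 24) := ⟨_, rfl⟩
  have hm1 : m ≤ η := hm ▸ min_le_left _ _
  have hm2 : m ≤ 1 / 24 := hm ▸ min_le_right _ _
  rw [← hm]
  have e₁ : Real.exp (2 / 3 * ℓ - (1 / 3 - e) * τ) ≤
      Real.exp (2 / 3 * ℓ) * Real.exp (-((1 / 3 - ε) * τ)) := by
    rw [← Real.exp_add, Real.exp_le_exp]
    nlinarith
  have e₂ : Real.exp (5 / 8 * ℓ) ≤ Real.exp (2 / 3 * ℓ) * Real.exp (-(m * ℓ)) := by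
    rw [← Real.exp_add, Real.exp_le_exp]
    nlinarith
  have e₃ : Real.exp ((2 / 3 - η) * ℓ) ≤ Real.exp (2 / 3 * ℓ) * Real.exp (-(m * ℓ)) := by
    rw [← Real.exp_add, Real.exp_le_exp]
    nlinarith
  have p₁ : 0 < Real.exp (2 / 3 * ℓ) := Real.exp_pos _
  have p₂ : 0 < Real.exp (-((1 / 3 - ε) * τ)) := Real.exp_pos _
  have p₃ : 0 < Real.exp (-(m * ℓ)) := Real.exp_pos _
  have c₁ : ((W.filter P).card : ℝ) ≤
      C₁ * (Real.exp (2 / 3 * ℓ) * Real.exp (-((1 / 3 - ε) * τ)) +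
        Real.exp (2 / 3 * ℓ) * Real.exp (-(m * ℓ))) := by
    exact b₁.trans (mul_le_mul_of_nonneg_left (add_le_add e₁ e₂) hC₁0.le)
  have c₂ : ((W.filter (fun t => ¬ P t)).card : ℝ) ≤
      C₂ * (Real.exp (2 / 3 * ℓ) * Real.exp (-((1 / 3 - ε) * τ)) +
        Real.exp (2 / 3 * ℓ) * Real.exp (-(m * ℓ))) := by
    refine b₂.trans (mul_le_mul_of_nonneg_left ?_ hC₂.le)
    have : 0 < Real.exp (2 / 3 * ℓ) * Real.exp (-((1 / 3 - ε) * τ)) := mul_pos p₁ p₂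
    linarith
  rw [hcast]
  calc ((W.filter P).card : ℝ) + ((W.filter (fun t => ¬ P t)).card : ℝ) ≤ _ :=
        add_le_add c₁ c₂
    _ = _ := by ring

/-- `devPts` in terms of elements. -/
lemma devPts_eq {K : Type*} [Field K] [NumberField K] {T R : ℝ} (hT : 0 < T) (hR : 0 < R) :
    devPts K T R = BPlus.ptOf '' {t : K | t ∈ tset K (Real.log R) ∧
      Real.log T ≤ 3 * hh t - Rs (Ip t)} := by
  set d : ℝ := (Module.finrank ℚ K : ℝ) with hd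
  have hd0 : 0 < d := finrank_pos'
  have hconv : ∀ t : K, (Real.exp (d * rad t (1 - t) (-1)) ≤ R ∧
      T * Real.exp (d * rad t (1 - t) (-1)) ≤ Real.exp (d * ht t (1 - t) (-1)) ^ 3) ↔
      (Rs (Ip t) ≤ Real.log R ∧ Real.log T ≤ 3 * hh t - Rs (Ip t)) := by
    intro t
    have e1 : ht t (1 - t) (-1) = BPlus.hh t / d := rfl
    have e2 : rad t (1 - t) (-1) = Rs (Ip t) / d := rfl
    rw [e1, e2, mul_div_cancel₀ _ hd0.ne', mul_div_cancel₀ _ hd0.ne',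
      Real.le_log_iff_exp_le hR]
    refine and_congr_right fun _ => ?_
    rw [← Real.exp_nat_mul, ← Real.exp_log hT, ← Real.exp_add, Real.exp_le_exp,
      Real.log_exp]
    push_cast
    constructor <;> intro h <;> linarith
  ext P
  constructor
  · rintro ⟨a, b, c, h, rfl, habc, hne, h1, h2⟩
    have hc : c ≠ 0 := right_ne_zero_of_mul hne
    have hb : b ≠ 0 := right_ne_zero_of_mul (left_ne_zero_of_mul hne)
    have ha : a ≠ 0 := left_ne_zero_of_mul (left_ne_zero_of_mul hne)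
    have h3 : Real.exp (d * rad (-a / c) (1 - -a / c) (-1)) ≤ R ∧
      T * Real.exp (d * rad (-a / c) (1 - -a / c) (-1)) ≤
        Real.exp (d * ht (-a / c) (1 - -a / c) (-1)) ^ 3 := by
      have e1 : ht (-a / c) (1 - -a / c) (-1) = ht a b c := by
        rw [ht, ht, logHeight_affine hc habc]
      have e2 : rad (-a / c) (1 - -a / c) (-1) = rad a b c := (rad_affine hc habc).symm
      rw [e1, e2]
      exact ⟨h1, h2⟩
    obtain ⟨h4, h5⟩ := (hconv _).mp h3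
    refine ⟨-a / c, ⟨⟨affine_ne_zero ha hc, affine_ne_one hb hc habc, h4⟩, h5⟩, ?_⟩
    rw [BPlus.ptOf, Projectivization.mk_eq_mk_iff']
    refine ⟨-1 / c, ?_⟩
    have h2 : -1 / c * b = 1 - -a / c := by
      field_simp
      linear_combination -habc
    ext i
    fin_cases i
    · change -1 / c * a = -a / c
      ring
    · exact h2
    · change -1 / c * c = -1
      field_simp
  · rintro ⟨t, ⟨⟨h0, h1, h2⟩, h3⟩, rfl⟩
    have h4 := (hconv t).mpr ⟨h2, h3⟩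
    refine ⟨t, 1 - t, -1, BPlus.vec_ne_zero t, rfl, by ring, ?_, h4.1, h4.2⟩
    exact mul_ne_zero (mul_ne_zero h0 (sub_ne_zero.mpr (Ne.symm h1))) (by simp)

/-- All but few points ordered by the radical have `H(P) ^ 3 ≤ T N(P)`. -/
theorem dev_count_sharp (K : Type*) [Field K] [NumberField K] (ε : ℝ) (hε : 0 < ε) :
    ∃ η C : ℝ, 0 < η ∧ 0 < C ∧ ∀ R T : ℝ, 1 ≤ R → 1 ≤ T →
      (devPts K T R).Finite ∧ ((devPts K T R).ncard : ℝ) ≤
        C * R ^ (2 / 3 : ℝ) * (T ^ (-(1 / 3) + ε) + R ^ (-η)) := by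
  obtain ⟨η, C, hη, hC, h⟩ := tail_affine K ε hε
  refine ⟨η, C, hη, hC, fun R T hR hT => ?_⟩
  have hR0 : 0 < R := by linarith
  have hT0 : 0 < T := by linarith
  obtain ⟨hfin, hcard⟩ := h (Real.log R) (Real.log T) (Real.log_nonneg hR) (Real.log_nonneg hT)
  rw [devPts_eq hT0 hR0]
  refine ⟨hfin.image _, ?_⟩
  rw [Set.ncard_image_of_injective _ BPlus.ptOf_injective]
  refine hcard.trans (le_of_eq ?_)
  rw [Real.rpow_def_of_pos hR0, Real.rpow_def_of_pos hR0, Real.rpow_def_of_pos hT0]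
  congr 3
  · ring
  · congr 1
    ring
  · congr 1
    ring

lemma three_hh_ge {K : Type*} [Field K] [NumberField K] {t : K} (h0 : t ≠ 0) (h1 : t ≠ 1) :
    0 ≤ 3 * hh t - Rs (Ip t) := by
  have h2 := three_hh h0 h1
  have h3 := LG_nonneg h0 h1
  have h4 : 0 ≤ ∑ v : InfinitePlace K, (v.mult : ℝ) * Av v t :=
    Finset.sum_nonneg fun v _ => mul_nonneg (Nat.cast_nonneg _) (Av_nonneg v h0 h1)
  linarith

lemma abcPts_eq_devPts {K : Type*} [Field K] [NumberField K] (R : ℝ) :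
    abcPts K R = devPts K 1 R := by
  set d : ℝ := (Module.finrank ℚ K : ℝ) with hd
  have hd0 : 0 < d := finrank_pos'
  ext P
  constructor
  · rintro ⟨a, b, c, h, rfl, habc, hne, h1⟩
    refine ⟨a, b, c, h, rfl, habc, hne, h1, ?_⟩
    have hc : c ≠ 0 := right_ne_zero_of_mul hne
    have hb : b ≠ 0 := right_ne_zero_of_mul (left_ne_zero_of_mul hne)
    have ha : a ≠ 0 := left_ne_zero_of_mul (left_ne_zero_of_mul hne)
    have h2 := three_hh_ge (affine_ne_zero ha hc) (affine_ne_one hb hc habc)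
    have e1 : ht a b c = hh (-a / c) / d := by
      rw [ht, logHeight_affine hc habc]
      rfl
    rw [← hd, e1, rad_affine hc habc, ← hd, mul_div_cancel₀ _ hd0.ne',
      mul_div_cancel₀ _ hd0.ne', one_mul, ← Real.exp_nat_mul, Real.exp_le_exp]
    push_cast
    linarith
  · rintro ⟨a, b, c, h, h1, h2, h3, h4, -⟩
    exact ⟨a, b, c, h, h1, h2, h3, h4⟩

theorem dev_count (K : Type*) [Field K] [NumberField K] :
    ∃ η C : ℝ, 0 < η ∧ 0 < C ∧ ∀ R T : ℝ, 1 ≤ R → 1 ≤ T →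
      (devPts K T R).Finite ∧ ((devPts K T R).ncard : ℝ) ≤
        C * R ^ (2 / 3 : ℝ) * (T ^ (-(1 / 4) : ℝ) + R ^ (-η)) := by
  obtain ⟨η, C, hη, hC, h⟩ := dev_count_sharp K (1 / 12) (by norm_num)
  have e : (-(1 / 3) + 1 / 12 : ℝ) = -(1 / 4) := by norm_num
  rw [e] at h
  exact ⟨η, C, hη, hC, h⟩

theorem abcPts_upper (K : Type*) [Field K] [NumberField K] :
    ∃ C : ℝ, 0 < C ∧ ∀ R : ℝ, 1 ≤ R → (abcPts K R).Finite ∧
      ((abcPts K R).ncard : ℝ) ≤ C * R ^ (2 / 3 : ℝ) := by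
  obtain ⟨η, C, hη, hC, h⟩ := dev_count K
  refine ⟨2 * C, by positivity, fun R hR => ?_⟩
  obtain ⟨hfin, hcard⟩ := h R 1 hR le_rfl
  rw [abcPts_eq_devPts]
  refine ⟨hfin, hcard.trans ?_⟩
  have h1 : R ^ (-η) ≤ 1 := Real.rpow_le_one_of_one_le_of_nonpos hR (by linarith)
  have h2 : 0 ≤ C * R ^ (2 / 3 : ℝ) := by positivity
  rw [Real.one_rpow]
  nlinarith

/-- Power saving for the points with `H(P) ≥ R ^ (1 / 3 + δ)`. -/
theorem high_count (K : Type*) [Field K] [NumberField K] (δ : ℝ) (hδ : 0 < δ) :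
    ∃ η C : ℝ, 0 < η ∧ 0 < C ∧ ∀ R : ℝ, 1 ≤ R →
      (highPts K (1 / 3 + δ) R).Finite ∧ ((highPts K (1 / 3 + δ) R).ncard : ℝ) ≤
        C * R ^ (2 / 3 - η) := by
  obtain ⟨η, C, hη, hC, h⟩ := dev_count K
  refine ⟨min η (3 * δ / 4), 2 * C, lt_min hη (by positivity), by positivity, fun R hR => ?_⟩
  have hR0 : 0 < R := by linarith
  have hd0 : (0 : ℝ) < (Module.finrank ℚ K : ℝ) := finrank_pos'
  obtain ⟨hfin, hcard⟩ := h R (R ^ (3 * δ)) hR (Real.one_le_rpow hR (by positivity))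
  have hsub : highPts K (1 / 3 + δ) R ⊆ devPts K (R ^ (3 * δ)) R := by
    rintro P ⟨a, b, c, hn, h1, h2, h3, h4, h5⟩
    refine ⟨a, b, c, hn, h1, h2, h3, h4, ?_⟩
    have h6 : R ^ (3 * δ) * Real.exp ((Module.finrank ℚ K : ℝ) * rad a b c) ≤
        R ^ (3 * δ) * R := mul_le_mul_of_nonneg_left h4 (by positivity)
    refine h6.trans ?_
    rw [← Real.exp_nat_mul, Real.rpow_def_of_pos hR0]
    nth_rewrite 2 [← Real.exp_log hR0]
    rw [← Real.exp_add, Real.exp_le_exp]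
    push_cast
    nlinarith
  refine ⟨hfin.subset hsub, ?_⟩
  have h7 : ((highPts K (1 / 3 + δ) R).ncard : ℝ) ≤ ((devPts K (R ^ (3 * δ)) R).ncard : ℝ) := by
    exact_mod_cast Set.ncard_le_ncard hsub hfin
  refine (h7.trans hcard).trans ?_
  obtain ⟨m, hm⟩ : ∃ m : ℝ, m = min η (3 * δ / 4) := ⟨_, rfl⟩
  have hm1 : m ≤ η := hm ▸ min_le_left _ _
  have hm2 : m ≤ 3 * δ / 4 := hm ▸ min_le_right _ _
  rw [← hm]
  have e0 : R ^ (2 / 3 - m) = R ^ (2 / 3 : ℝ) * R ^ (-m) := by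
    rw [← Real.rpow_add hR0]
    congr 1
  have e1 : (R ^ (3 * δ)) ^ (-(1 / 4) : ℝ) ≤ R ^ (-m) := by
    rw [← Real.rpow_mul hR0.le]
    exact Real.rpow_le_rpow_of_exponent_le hR (by linarith)
  have e2 : R ^ (-η) ≤ R ^ (-m) := Real.rpow_le_rpow_of_exponent_le hR (by linarith)
  rw [e0]
  calc C * R ^ (2 / 3 : ℝ) * ((R ^ (3 * δ)) ^ (-(1 / 4) : ℝ) + R ^ (-η)) ≤
      C * R ^ (2 / 3 : ℝ) * (R ^ (-m) + R ^ (-m)) :=
        mul_le_mul_of_nonneg_left (add_le_add e1 e2) (by positivity)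
    _ = 2 * C * (R ^ (2 / 3 : ℝ) * R ^ (-m)) := by ring

/-- Power saving for the points with `h(P) > (1 / 3 + δ) rad(P)`. -/
theorem fail_count (K : Type*) [Field K] [NumberField K] (δ : ℝ) (hδ : 0 < δ) :
    ∃ η C : ℝ, 0 < η ∧ 0 < C ∧ ∀ R : ℝ, 1 ≤ R →
      (abcFail K (1 / 3 + δ) R).Finite ∧ ((abcFail K (1 / 3 + δ) R).ncard : ℝ) ≤
        C * R ^ (2 / 3 - η) := by
  obtain ⟨η, C, hη, hC, h⟩ := dev_count K
  obtain ⟨C', hC', h'⟩ := abcPts_upper K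
  refine ⟨min (min η (3 * δ / 8)) (1 / 3), 2 * C + C',
    lt_min (lt_min hη (by positivity)) (by norm_num), by positivity, fun R hR => ?_⟩
  have hR0 : 0 < R := by linarith
  have hd0 : (0 : ℝ) < (Module.finrank ℚ K : ℝ) := finrank_pos'
  obtain ⟨hfin, hcard⟩ := h R (R ^ (3 * δ / 2)) hR (Real.one_le_rpow hR (by positivity))
  obtain ⟨hfin', hcard'⟩ := h' (R ^ (1 / 2 : ℝ)) (Real.one_le_rpow hR (by norm_num))
  have hsub : abcFail K (1 / 3 + δ) R ⊆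
      devPts K (R ^ (3 * δ / 2)) R ∪ abcPts K (R ^ (1 / 2 : ℝ)) := by
    rintro P ⟨a, b, c, hn, h1, h2, h3, h4, h5⟩
    rcases le_total (Real.exp ((Module.finrank ℚ K : ℝ) * rad a b c)) (R ^ (1 / 2 : ℝ)) with
      h6 | h6
    · exact Or.inr ⟨a, b, c, hn, h1, h2, h3, h6⟩
    · refine Or.inl ⟨a, b, c, hn, h1, h2, h3, h4, ?_⟩
      have h7 : 1 / 2 * Real.log R ≤ (Module.finrank ℚ K : ℝ) * rad a b c := by
        rw [Real.rpow_def_of_pos hR0, Real.exp_le_exp] at h6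
        linarith
      have h8 := mul_lt_mul_of_pos_left h5 hd0
      rw [← Real.exp_nat_mul, Real.rpow_def_of_pos hR0, ← Real.exp_add, Real.exp_le_exp]
      push_cast
      nlinarith
  have hun := hfin.union hfin'
  refine ⟨hun.subset hsub, ?_⟩
  have h7 : ((abcFail K (1 / 3 + δ) R).ncard : ℝ) ≤ ((devPts K (R ^ (3 * δ / 2)) R).ncard : ℝ) +
      ((abcPts K (R ^ (1 / 2 : ℝ))).ncard : ℝ) := by
    exact_mod_cast (Set.ncard_le_ncard hsub hun).trans (Set.ncard_union_le _ _)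
  refine h7.trans ((add_le_add hcard hcard').trans ?_)
  obtain ⟨m, hm⟩ : ∃ m : ℝ, m = min (min η (3 * δ / 8)) (1 / 3) := ⟨_, rfl⟩
  have hm1 : m ≤ η := hm ▸ (min_le_left _ _).trans (min_le_left _ _)
  have hm2 : m ≤ 3 * δ / 8 := hm ▸ (min_le_left _ _).trans (min_le_right _ _)
  have hm3 : m ≤ 1 / 3 := hm ▸ min_le_right _ _
  rw [← hm]
  have e0 : R ^ (2 / 3 - m) = R ^ (2 / 3 : ℝ) * R ^ (-m) := by
    rw [← Real.rpow_add hR0]
    congr 1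
  have e1 : (R ^ (3 * δ / 2)) ^ (-(1 / 4) : ℝ) ≤ R ^ (-m) := by
    rw [← Real.rpow_mul hR0.le]
    exact Real.rpow_le_rpow_of_exponent_le hR (by linarith)
  have e2 : R ^ (-η) ≤ R ^ (-m) := Real.rpow_le_rpow_of_exponent_le hR (by linarith)
  have e3 : (R ^ (1 / 2 : ℝ)) ^ (2 / 3 : ℝ) ≤ R ^ (2 / 3 - m) := by
    rw [← Real.rpow_mul hR0.le]
    exact Real.rpow_le_rpow_of_exponent_le hR (by linarith)
  calc C * R ^ (2 / 3 : ℝ) * ((R ^ (3 * δ / 2)) ^ (-(1 / 4) : ℝ) + R ^ (-η)) +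
      C' * (R ^ (1 / 2 : ℝ)) ^ (2 / 3 : ℝ) ≤
      C * R ^ (2 / 3 : ℝ) * (R ^ (-m) + R ^ (-m)) + C' * R ^ (2 / 3 - m) :=
        add_le_add (mul_le_mul_of_nonneg_left (add_le_add e1 e2) (by positivity))
          (mul_le_mul_of_nonneg_left e3 hC'.le)
    _ = (2 * C + C') * R ^ (2 / 3 - m) := by
        rw [e0]
        ring

/-- The three statements together. -/
theorem radical_order (K : Type*) [Field K] [NumberField K] :
    (∃ c C : ℝ, 0 < c ∧ (∀ R : ℝ, 1 ≤ R → (abcPts K R).Finite ∧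
        ((abcPts K R).ncard : ℝ) ≤ C * R ^ (2 / 3 : ℝ)) ∧
      ∃ R₀ : ℝ, ∀ R : ℝ, R₀ ≤ R → c * R ^ (2 / 3 : ℝ) ≤ ((abcPts K R).ncard : ℝ)) ∧
    (∀ δ : ℝ, 0 < δ → ∃ η C : ℝ, 0 < η ∧ ∀ R : ℝ, 1 ≤ R →
      ((abcFail K (1 / 3 + δ) R).ncard : ℝ) ≤ C * R ^ (2 / 3 - η)) ∧
    ∀ ε : ℝ, 0 < ε → ∃ η C : ℝ, 0 < η ∧ ∀ R T : ℝ, 1 ≤ R → 1 ≤ T →
      ((devPts K T R).ncard : ℝ) ≤ C * (T ^ (-(1 / 3) + ε) + R ^ (-η)) * R ^ (2 / 3 : ℝ) := by
  refine ⟨?_, ?_, ?_⟩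
  · obtain ⟨c, R₀, hc, hlow⟩ := lower_abcPts K
    obtain ⟨C, -, hup⟩ := abcPts_upper K
    exact ⟨c, C, hc, hup, R₀, hlow⟩
  · intro δ hδ
    obtain ⟨η, C, hη, -, h⟩ := fail_count K δ hδ
    exact ⟨η, C, hη, fun R hR => (h R hR).2⟩
  · intro ε hε
    obtain ⟨η, C, hη, -, h⟩ := dev_count_sharp K ε hε
    refine ⟨η, C, hη, fun R T hR hT => (h R T hR hT).2.trans (le_of_eq ?_)⟩
    ring

end Pool.Agent.Work.MP_a793bb_nt
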